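import Pool.Agent.Run7.h872.IS.Graph

set_option autoImplicit false
set_option linter.unusedSectionVars false

/-!
# Recursively enumerable equivalence relations and double cosets
(MP_3d45c4_lc, helper872)
-/

namespace Pool.Agent.Run7.h872.IS

open Pool.Agent.Helper844.Sys Pool.Agent.Q223.IS

theorem Xw_single {J M : Type} [Fintype J] [DecidableEq J] [Group M] (x : J → M) (c : J) :
    Xw x (Pi.single c 1) = x c := by
  unfold Xw
  have h : ∀ l : List J, l.Nodup →
      ((l.map fun d => x d ^ (Pi.single c (1 : ℤ) : J → ℤ) d).prod = if c ∈ l then x c else 1) := by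
    intro l hl
    induction l with
    | nil => simp
    | cons d l ih =>
      rw [List.nodup_cons] at hl
      rw [List.map_cons, List.prod_cons, ih hl.2]
      by_cases hd : d = c
      · subst hd
        simp [hl.1]
      · have : c ≠ d := fun h => hd h.symm
        simp [hd, this]
  rw [h _ (Finset.nodup_toList _)]
  simp

theorem dbl_congr {P J ι : Type} [Fintype J] [DecidableEq J] (D : ι → Rl P J)
    {g g' h h' : FreeGroup (Al P J ι)} (hg : pj D g = pj D g') (hh : pj D h = pj D h')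
    (H : Dbl D g h) : Dbl D g' h' := by
  obtain ⟨ρ, hρ, σ, hσ, e⟩ := H
  refine ⟨ρ, hρ, σ, hσ, ?_⟩
  rw [← hg, map_mul, map_mul, ← hh, ← map_mul, ← map_mul]
  exact e

theorem exists_dc (R : ℕ → ℕ → Prop) (hR : Equivalence R)
    (hre : REPred (fun p : ℕ × ℕ => R p.1 p.2)) :
    ∃ (A κ ι : Type) (_ : Fintype A) (_ : Fintype κ) (_ : Fintype ι) (rl : κ → FreeGroup A)
      (r s : ι → FreeGroup A) (U V : FreeGroup A), ∀ a b : ℕ,
        R a b ↔ Dc (pr rl) r s (U ^ a * V) (U ^ b * V) := by
  classical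
  obtain ⟨X, _, n, m, L, hnm, hL⟩ := Pool.Agent.Y786.ISO.t R hre
  let Q : Type := Fin L.length
  let E : Q → Eqn X := fun q => L.get q
  let D := Dr E n m
  refine ⟨Al (Stt Q) (Rg X Q) (Ru X Q), (Rg X Q × Rg X Q) ⊕ (Ru X Q × Rg X Q), Ru X Q,
    inferInstance, inferInstance, inferInstance, rel D, gr _ _, gs D,
    gx _ _ _ (rx (some n)), gx _ _ _ (rx none) * gt _ _ sG, ?_⟩
  have hpj : ∀ a : ℕ, pj D (gw (Ru X Q) ((sG, W0 n (a : ℤ)) : Stt Q × (Rg X Q → ℤ))) =
      pj D (gx _ _ _ (rx (some n)) ^ a * (gx _ _ _ (rx none) * gt _ _ sG)) := by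
    intro a
    unfold gw W0
    rw [map_mul, map_Xw, Xw_add _ (pj_xx D), natCast_zsmul, Xw_nsmul _ (pj_xx D), Xw_single,
      Xw_single, map_mul, map_pow, map_mul, mul_assoc]
  have hD : ∀ a b : ℕ, Dc (pr (rel D)) (gr (Stt Q) (Rg X Q)) (gs D)
      (gx _ _ _ (rx (some n)) ^ a * (gx _ _ _ (rx none) * gt _ _ sG))
      (gx _ _ _ (rx (some n)) ^ b * (gx _ _ _ (rx none) * gt _ _ sG)) ↔
      Dbl D (gw (Ru X Q) (sG, W0 n (a : ℤ))) (gw (Ru X Q) (sG, W0 n (b : ℤ))) := by
    intro a b
    have h1 := hpj a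
    have h2 := hpj b
    exact ⟨fun H => dbl_congr D h1.symm h2.symm H, fun H => dbl_congr D h1 h2 H⟩
  intro a b
  rw [hD]
  have hwalk : ∀ a b : ℕ, R a b → Cn D (sG, W0 n (a : ℤ)) (sF, W0 m (b : ℤ)) := by
    intro a b hab
    obtain ⟨v, hvn, hvm, hv⟩ := (hL a b).2 ⟨a, b, rfl, rfl, hab⟩
    have := walk E n m v (fun q => hv _ (List.get_mem _ _))
    rw [hvn, hvm] at this
    exact this
  constructor
  · intro hab
    exact dbl_eqv D ((hwalk a b hab).trans (hwalk b b (hR.refl b)).symm)
  · intro h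
    let K : ℤ → Prop := fun k => ∃ c : ℕ, k = c ∧ R c b
    have hK : ∀ w : Rg X Q → ℤ, w (rx none) = 1 → (∀ q, ve E q w = 0) →
        (K (w (rx (some n))) ↔ K (w (rx (some m)))) := by
      intro w h1 hq
      obtain ⟨a', b', ha', hb', hab'⟩ := (hL (w (rx (some n))) (w (rx (some m)))).1
        ⟨fun x => w (rx (some x)), rfl, rfl, by
          intro q hq'
          obtain ⟨i, rfl⟩ := List.mem_iff_get.1 hq'
          have := hq i
          unfold ve at this
          simp only [Fin.sum_univ_five, ti, tj, te, if_true] at this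
          unfold Eqn.Holds
          simp at this
          simp only [E] at this
          simp only [rx] at h1 ⊢
          rw [h1] at this
          simp only [List.get_eq_getElem] at this ⊢
          linarith⟩
      rw [ha', hb']
      constructor
      · rintro ⟨c, hc, hcb⟩
        have : a' = c := by exact_mod_cast hc
        subst this
        exact ⟨b', rfl, hR.trans (hR.symm hab') hcb⟩
      · rintro ⟨c, hc, hcb⟩
        have : b' = c := by exact_mod_cast hc
        subst this
        exact ⟨a', rfl, hR.trans hab' hcb⟩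
    have h1 : ∀ a : ℕ, pC E n m K sG (W0 n (a : ℤ)) ↔ K a := by
      intro a
      show (_ ∧ _ ∧ _ ∧ _ ∧ _) ↔ _
      unfold W0
      simp
    have h2 := dbl_sound D (closed E n m K hK) h ((h1 b).2 ⟨b, rfl, hR.refl b⟩)
    obtain ⟨c, hc, hcb⟩ := (h1 a).1 h2
    have : a = c := by exact_mod_cast hc
    subst this
    exact hcb

end Pool.Agent.Run7.h872.IS
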