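import Pool.Agent.Q223.IS.Asm
import Pool.Agent.Y786.ISO.Arith

set_option autoImplicit false
set_option linter.unusedSectionVars false

/-!
# Recursively enumerable equivalence relations and affine rules
(MP_3d45c4_lc, helper872)

A finite system of integral quadratic equations is turned into a finite system of affine rules in
the sense of `Pool.Agent.Q223.IS.Rl` (translations restricted to cosets of a subgroup).
-/

namespace Pool.Agent.Run7.h872.IS

open Pool.Agent.Helper844.Sys Pool.Agent.Q223.IS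

/-! ### Walks -/

section Walk

variable {P J ι : Type} (D : ι → Rl P J)

/-- Connectedness of configurations. -/
def Cn (c c' : P × (J → ℤ)) : Prop := Relation.EqvGen (Step D) c c'

theorem Cn.refl (c : P × (J → ℤ)) : Cn D c c := Relation.EqvGen.refl _

variable {D}

theorem Cn.symm {c c' : P × (J → ℤ)} (h : Cn D c c') : Cn D c' c := Relation.EqvGen.symm _ _ h

theorem Cn.trans {c c' c'' : P × (J → ℤ)} (h : Cn D c c') (h' : Cn D c' c'') : Cn D c c'' :=
  Relation.EqvGen.trans _ _ _ h h'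

/-- Free moves can be iterated, along a set of vectors which is preserved. -/
theorem free_zsmul {p : P} (S : (J → ℤ) → Prop) (e : J → ℤ)
    (hS : ∀ w, S w ↔ S (w + e)) (h : ∀ w, S w → Cn D (p, w) (p, w + e)) (k : ℤ) (w : J → ℤ)
    (hw : S w) : Cn D (p, w) (p, w + k • e) ∧ S (w + k • e) := by
  induction k using Int.induction_on with
  | zero => simpa using ⟨Cn.refl D _, hw⟩
  | succ k ih =>
    have e1 : w + ((k : ℤ) + 1) • e = (w + (k : ℤ) • e) + e := by
      rw [add_smul, one_smul, add_assoc]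
    rw [e1]
    exact ⟨ih.1.trans (h _ ih.2), (hS _).1 ih.2⟩
  | pred k ih =>
    have e1 : w + (-(k : ℤ)) • e = (w + (-(k : ℤ) - 1) • e) + e := by
      rw [sub_smul, one_smul]; abel
    rw [e1] at ih
    have h2 := (hS _).2 ih.2
    exact ⟨ih.1.trans (h _ h2).symm, h2⟩

/-- The same for several moves. -/
theorem free_sum {p : P} {α : Type} (S : (J → ℤ) → Prop) (e : α → J → ℤ) (T : Finset α)
    (hS : ∀ x ∈ T, ∀ w, S w ↔ S (w + e x)) (h : ∀ x ∈ T, ∀ w, S w → Cn D (p, w) (p, w + e x))
    (k : α → ℤ) (w : J → ℤ) (hw : S w) :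
    Cn D (p, w) (p, w + ∑ x ∈ T, k x • e x) ∧ S (w + ∑ x ∈ T, k x • e x) := by
  classical
  induction T using Finset.induction_on generalizing w with
  | empty => simpa using ⟨Cn.refl D _, hw⟩
  | insert x T hx ih =>
    rw [Finset.sum_insert hx, ← add_assoc]
    have h1 := free_zsmul S (e x) (hS x (Finset.mem_insert_self _ _))
      (h x (Finset.mem_insert_self _ _)) (k x) w hw
    have h2 := ih (fun y hy => hS y (Finset.mem_insert_of_mem hy))
      (fun y hy => h y (Finset.mem_insert_of_mem hy)) _ h1.2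
    exact ⟨h1.1.trans h2.1, h2.2⟩

end Walk

/-! ### The rules -/

section Rules

variable {X Q : Type}

/-- A coordinate substitution. -/
def sb {J : Type} (κ : J → Option J) : (J → ℤ) →+ (J → ℤ) where
  toFun z j := (κ j).elim 0 z
  map_zero' := by
    funext j
    cases κ j <;> rfl
  map_add' z w := by
    funext j
    show _ = (κ j).elim 0 z + (κ j).elim 0 w
    cases κ j <;> simp

theorem sb_apply {J : Type} (κ : J → Option J) (z : J → ℤ) (j : J) :
    sb κ z j = (κ j).elim 0 z := rfl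

theorem sb_some {J : Type} (z : J → ℤ) : sb (some : J → Option J) z = z := rfl

variable (X Q) in
/-- The registers: the unknowns and a register `1`, the counters, the accumulators, an auxiliary
register. -/
abbrev Rg : Type := Option X ⊕ ((Q × Fin 5) ⊕ (Q ⊕ Unit))

/-- The counter limit of a term. -/
def ti (E : Q → Eqn X) (t : Q × Fin 5) : Option X :=
  if t.2 = 0 then some (E t.1).i else none

/-- The second factor of a term. -/
def tj (E : Q → Eqn X) (t : Q × Fin 5) : Option X :=
  match t.2 with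
  | 0 => some (E t.1).j
  | 1 => some (E t.1).k
  | 2 => some (E t.1).l
  | 3 => some (E t.1).m
  | 4 => none

/-- The coefficient of a term. -/
def te (E : Q → Eqn X) (t : Q × Fin 5) : ℤ :=
  match t.2 with
  | 0 => (E t.1).e
  | 1 => (E t.1).a
  | 2 => (E t.1).b
  | 3 => (E t.1).c
  | 4 => (E t.1).d

/-- The value of the equation `q`. -/
def ve (E : Q → Eqn X) (q : Q) (w : Rg X Q → ℤ) : ℤ :=
  ∑ r : Fin 5, te E (q, r) * w (Sum.inl (ti E (q, r))) * w (Sum.inl (tj E (q, r)))

/-- The defect of the accumulator. -/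
def th (E : Q → Eqn X) (q : Q) (w : Rg X Q → ℤ) : ℤ :=
  w (Sum.inr (Sum.inr (Sum.inl q))) -
    ∑ r : Fin 5, te E (q, r) * w (Sum.inr (Sum.inl (q, r))) * w (Sum.inl (tj E (q, r)))

variable (Q) in
/-- The states `G`, `H`, `F` and the states of the inner loops. -/
abbrev Stt : Type := Fin 3 ⊕ (Bool × (Q × Fin 5))

/-- states -/
abbrev sG : Stt Q := Sum.inl 0
/-- states -/
abbrev sH : Stt Q := Sum.inl 1
/-- states -/
abbrev sF : Stt Q := Sum.inl 2
/-- states -/
abbrev s1 (t : Q × Fin 5) : Stt Q := Sum.inr (false, t)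
/-- states -/
abbrev s2 (t : Q × Fin 5) : Stt Q := Sum.inr (true, t)

variable (X Q) in
/-- The rules. -/
abbrev Ru : Type := Bool ⊕ ((X × Bool) ⊕ ((Q × Fin 5) × Fin 6))

/-- register -/
abbrev rx (o : Option X) : Rg X Q := Sum.inl o
/-- register -/
abbrev rc (t : Q × Fin 5) : Rg X Q := Sum.inr (Sum.inl t)
/-- register -/
abbrev rs (q : Q) : Rg X Q := Sum.inr (Sum.inr (Sum.inl q))
/-- register -/
abbrev ru : Rg X Q := Sum.inr (Sum.inr (Sum.inr ()))

/-- kills the counters and the accumulators -/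
def kG : Rg X Q → Option (Rg X Q)
  | Sum.inl o => some (rx o)
  | Sum.inr (Sum.inl _) => none
  | Sum.inr (Sum.inr (Sum.inl _)) => none
  | Sum.inr (Sum.inr (Sum.inr _)) => some ru

/-- counters at their limits, accumulators zero -/
def kF (E : Q → Eqn X) : Rg X Q → Option (Rg X Q)
  | Sum.inl o => some (rx o)
  | Sum.inr (Sum.inl t) => some (rx (ti E t))
  | Sum.inr (Sum.inr (Sum.inl _)) => none
  | Sum.inr (Sum.inr (Sum.inr _)) => some ru

/-- the auxiliary register is the other register `o` (or zero) -/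
def kU (o : Option (Rg X Q)) : Rg X Q → Option (Rg X Q)
  | Sum.inl o => some (rx o)
  | Sum.inr (Sum.inl t) => some (rc t)
  | Sum.inr (Sum.inr (Sum.inl q)) => some (rs q)
  | Sum.inr (Sum.inr (Sum.inr _)) => o

variable [DecidableEq X] [DecidableEq Q]

/-- the move in the first inner loop -/
def mv (E : Q → Eqn X) (t : Q × Fin 5) : Rg X Q → ℤ :=
  Pi.single ru 1 + te E t • Pi.single (rs t.1) 1

/-- The rules. -/
def Dr (E : Q → Eqn X) (n m : X) : Ru X Q → Rl (Stt Q) (Rg X Q)
  | Sum.inl false => ⟨sG, sH, sb kG, 0, 0⟩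
  | Sum.inl true => ⟨sH, sF, sb (kF E), 0, 0⟩
  | Sum.inr (Sum.inl (x, false)) =>
      ⟨sG, sG, sb some, 0, if x = n then 0 else Pi.single (rx (some x)) 1⟩
  | Sum.inr (Sum.inl (x, true)) =>
      ⟨sF, sF, sb some, 0, if x = m then 0 else Pi.single (rx (some x)) 1⟩
  | Sum.inr (Sum.inr (t, 0)) => ⟨sH, s1 t, sb (kU none), 0, 0⟩
  | Sum.inr (Sum.inr (t, 1)) => ⟨s1 t, s1 t, sb some, 0, mv E t⟩
  | Sum.inr (Sum.inr (t, 2)) => ⟨s1 t, s2 t, sb (kU (some (rx (tj E t)))), 0, 0⟩
  | Sum.inr (Sum.inr (t, 3)) => ⟨s2 t, s2 t, sb some, 0, Pi.single ru 1⟩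
  | Sum.inr (Sum.inr (t, 4)) => ⟨s2 t, sH, sb (kU none), 0, Pi.single (rc t) 1⟩
  | Sum.inr (Sum.inr (t, 5)) => ⟨sF, sF, sb some, 0, Pi.single (rc t) 1⟩

/-- Using a rule. -/
theorem use_rule (E : Q → Eqn X) (n m : X) (i : Ru X Q) (w : Rg X Q → ℤ)
    (ha : (Dr E n m i).a = 0) (hw : (Dr E n m i).μ w = w) :
    Cn (Dr E n m) ((Dr E n m i).src, w) ((Dr E n m i).tgt, w + (Dr E n m i).b) := by
  have h := Step.mk (D := Dr E n m) i w
  rw [ha, hw, zero_add, add_comm] at h
  exact Relation.EqvGen.rel _ _ h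

/-- The predicate at the hub. -/
def pH (E : Q → Eqn X) (n m : X) (K : ℤ → Prop) (w : Rg X Q → ℤ) : Prop :=
  w (rx none) = 1 ∧ w ru = 0 ∧
    (((∀ q, th E q w = 0) ∧ K (w (rx (some n)))) ∨
      ((∀ q, th E q w = - ve E q w) ∧ K (w (rx (some m)))))

/-- The closed predicate. -/
def pC (E : Q → Eqn X) (n m : X) (K : ℤ → Prop) : Stt Q → (Rg X Q → ℤ) → Prop
  | Sum.inl 0, w => w (rx none) = 1 ∧ w ru = 0 ∧ (∀ t, w (rc t) = 0) ∧ (∀ q, w (rs q) = 0) ∧
      K (w (rx (some n)))
  | Sum.inl 1, w => pH E n m K w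
  | Sum.inl 2, w => w (rx none) = 1 ∧ w ru = 0 ∧ (∀ q, w (rs q) = 0) ∧ K (w (rx (some m)))
  | Sum.inr (false, t), w => pH E n m K (w - w ru • mv E t)
  | Sum.inr (true, t), w => pH E n m K (w - w ru • Pi.single ru 1 + Pi.single (rc t) 1)

theorem ve_congr (E : Q → Eqn X) (q : Q) {w w' : Rg X Q → ℤ} (h : ∀ o, w (rx o) = w' (rx o)) :
    ve E q w = ve E q w' := by
  unfold ve
  simp only [h]

theorem pH_congr (E : Q → Eqn X) (n m : X) (K : ℤ → Prop) {w w' : Rg X Q → ℤ}
    (h : ∀ o, w (rx o) = w' (rx o)) (hu : w ru = w' ru) (ht : ∀ q, th E q w = th E q w') :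
    pH E n m K w ↔ pH E n m K w' := by
  unfold pH
  simp only [h, hu, ht, fun q => ve_congr E q h]

theorem mv_x (E : Q → Eqn X) (t : Q × Fin 5) (o : Option X) : mv E t (rx o) = 0 := by
  simp [mv]

theorem mv_c (E : Q → Eqn X) (t t' : Q × Fin 5) : mv E t (rc t') = 0 := by
  simp [mv]

theorem mv_u (E : Q → Eqn X) (t : Q × Fin 5) : mv E t ru = 1 := by
  simp [mv]

theorem mv_s (E : Q → Eqn X) (t : Q × Fin 5) (q : Q) :
    mv E t (rs q) = if q = t.1 then te E t else 0 := by
  by_cases h : q = t.1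
  · subst h; simp [mv]
  · have : (rs q : Rg X Q) ≠ rs t.1 := by simpa using h
    simp [mv, h]

theorem th_mv (E : Q → Eqn X) (q : Q) (t : Q × Fin 5) (k : ℤ) (w : Rg X Q → ℤ) :
    th E q (w - k • mv E t) = th E q w - (if q = t.1 then k * te E t else 0) := by
  unfold th
  simp only [Pi.sub_apply, Pi.smul_apply, smul_eq_mul, mv_x, mv_c, mul_zero, sub_zero]
  have := mv_s E t q
  simp only [rs] at this
  rw [this]
  split_ifs <;> ring

theorem th_c (E : Q → Eqn X) (q : Q) (t : Q × Fin 5) (k : ℤ) (w : Rg X Q → ℤ) :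
    th E q (w + k • (Pi.single (rc t) 1 : Rg X Q → ℤ)) =
      th E q w - (if q = t.1 then k * (te E t * w (rx (tj E t))) else 0) := by
  unfold th
  have h1 : ∀ o : Option X, (Pi.single (rc t) 1 : Rg X Q → ℤ) (Sum.inl o) = 0 := by
    intro o; simp
  have h2 : ∀ q : Q, (Pi.single (rc t) 1 : Rg X Q → ℤ) (Sum.inr (Sum.inr (Sum.inl q))) = 0 := by
    intro q; simp
  have h3 : ∀ t' : Q × Fin 5, (Pi.single (rc t) 1 : Rg X Q → ℤ) (Sum.inr (Sum.inl t')) =
      if t' = t then 1 else 0 := by
    intro t'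
    by_cases h : t' = t
    · subst h; simp
    · have : (rc t' : Rg X Q) ≠ rc t := by simpa using h
      simp [h]
  simp only [Pi.add_apply, Pi.smul_apply, smul_eq_mul, h1, h2, h3, mul_zero, add_zero]
  obtain ⟨q', r'⟩ := t
  by_cases hq : q = q'
  · subst hq
    simp only [if_true, Prod.mk.injEq, true_and]
    have : ∀ r : Fin 5, te E (q, r) * (w (Sum.inr (Sum.inl (q, r))) + k * (if r = r' then 1 else 0)) *
        w (Sum.inl (tj E (q, r))) = te E (q, r) * w (Sum.inr (Sum.inl (q, r))) *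
        w (Sum.inl (tj E (q, r))) +
        (if r = r' then k * (te E (q, r) * w (Sum.inl (tj E (q, r)))) else 0) := by
      intro r
      split_ifs <;> ring
    simp only [this, Finset.sum_add_distrib, Finset.sum_ite_eq', Finset.mem_univ, if_true]
    ring
  · simp [hq]

theorem th_u (E : Q → Eqn X) (q : Q) (k : ℤ) (w : Rg X Q → ℤ) :
    th E q (w + k • (Pi.single ru 1 : Rg X Q → ℤ)) = th E q w := by
  unfold th
  have h1 : ∀ o : Option X, (Pi.single ru 1 : Rg X Q → ℤ) (Sum.inl o) = 0 := by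
    intro o; simp
  have h2 : ∀ q : Q, (Pi.single ru 1 : Rg X Q → ℤ) (Sum.inr (Sum.inr (Sum.inl q))) = 0 := by
    intro q; simp
  have h3 : ∀ t' : Q × Fin 5, (Pi.single ru 1 : Rg X Q → ℤ) (Sum.inr (Sum.inl t')) = 0 := by
    intro t'; simp
  simp only [Pi.add_apply, Pi.smul_apply, smul_eq_mul, h1, h2, h3, mul_zero, add_zero]

/-- The step from the first to the second inner loop. -/
theorem pC_12 (E : Q → Eqn X) (n m : X) (K : ℤ → Prop) (t : Q × Fin 5) (w : Rg X Q → ℤ)
    (hw : w ru = w (rx (tj E t))) : pC E n m K (s1 t) w ↔ pC E n m K (s2 t) w := by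
  show pH E n m K (w - w ru • mv E t) ↔
    pH E n m K (w - w ru • Pi.single ru 1 + Pi.single (rc t) 1)
  apply pH_congr
  · intro o
    have := mv_x E t o
    simp [this]
  · have := mv_u E t
    simp [this]
  · intro q
    rw [th_mv]
    have e : w - w ru • (Pi.single ru 1 : Rg X Q → ℤ) + Pi.single (rc t) 1 =
        (w + (-w ru) • (Pi.single ru 1 : Rg X Q → ℤ)) + (1 : ℤ) • Pi.single (rc t) 1 := by
      rw [neg_smul, one_smul, sub_eq_add_neg]
    rw [e, th_c, th_u]
    have e2 : (w + (-w ru) • (Pi.single ru 1 : Rg X Q → ℤ)) (rx (tj E t)) = w (rx (tj E t)) := by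
      simp
    rw [e2, hw]
    split_ifs <;> ring

theorem closed (E : Q → Eqn X) (n m : X) (K : ℤ → Prop)
    (hK : ∀ w : Rg X Q → ℤ, w (rx none) = 1 → (∀ q, ve E q w = 0) →
      (K (w (rx (some n))) ↔ K (w (rx (some m))))) :
    Closed (Dr E n m) (pC E n m K) := by
  rintro (b | ⟨x, b⟩ | ⟨t, j⟩) z
  · cases b
    · -- `G` and `H`
      show pC E n m K sG (0 + sb kG z) ↔ pC E n m K sH (0 + sb kG z)
      rw [zero_add]
      set w := sb kG z with hw
      have hc : ∀ t, w (rc t) = 0 := fun t => rfl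
      have hs : ∀ q, w (rs q) = 0 := fun q => rfl
      have hth : ∀ q, th E q w = 0 := by
        intro q
        unfold th
        have h1 : w (Sum.inr (Sum.inr (Sum.inl q))) = 0 := hs q
        have h2 : ∀ r : Fin 5, w (Sum.inr (Sum.inl (q, r))) = 0 := fun r => hc _
        simp [h1, h2]
      show _ ∧ _ ∧ _ ∧ _ ∧ _ ↔ pH E n m K w
      unfold pH
      constructor
      · rintro ⟨h1, h2, _, _, h5⟩
        exact ⟨h1, h2, Or.inl ⟨hth, h5⟩⟩
      · rintro ⟨h1, h2, h3⟩
        refine ⟨h1, h2, hc, hs, ?_⟩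
        rcases h3 with h3 | h3
        · exact h3.2
        · refine (hK w h1 ?_).2 h3.2
          intro q
          have := h3.1 q
          rw [hth] at this
          linarith
    · -- `H` and `F`
      show pC E n m K sH (0 + sb (kF E) z) ↔ pC E n m K sF (0 + sb (kF E) z)
      rw [zero_add]
      set w := sb (kF E) z with hw
      have hc : ∀ t, w (rc t) = w (rx (ti E t)) := fun t => rfl
      have hs : ∀ q, w (rs q) = 0 := fun q => rfl
      have hth : ∀ q, th E q w = - ve E q w := by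
        intro q
        unfold th ve
        have h1 : w (Sum.inr (Sum.inr (Sum.inl q))) = 0 := hs q
        have h2 : ∀ r : Fin 5, w (Sum.inr (Sum.inl (q, r))) = w (Sum.inl (ti E (q, r))) :=
          fun r => hc _
        simp only [h1, h2, zero_sub]
      show pH E n m K w ↔ _ ∧ _ ∧ _ ∧ _
      unfold pH
      constructor
      · rintro ⟨h1, h2, h3⟩
        refine ⟨h1, h2, hs, ?_⟩
        rcases h3 with h3 | h3
        · refine (hK w h1 ?_).1 h3.2
          intro q
          have := h3.1 q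
          rw [hth] at this
          linarith
        · exact h3.2
      · rintro ⟨h1, h2, _, h5⟩
        exact ⟨h1, h2, Or.inr ⟨hth, h5⟩⟩
  · cases b
    · show pC E n m K sG (0 + sb some z) ↔
        pC E n m K sG ((if x = n then 0 else Pi.single (rx (some x)) 1) + sb some z)
      rw [zero_add, sb_some]
      by_cases hx : x = n
      · rw [if_pos hx, zero_add]
      · rw [if_neg hx]
        have hx' : (some n : Option X) ≠ some x := by simpa using Ne.symm hx
        show (_ ∧ _ ∧ _ ∧ _ ∧ _) ↔ (_ ∧ _ ∧ _ ∧ _ ∧ _)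
        simp [hx']
    · show pC E n m K sF (0 + sb some z) ↔
        pC E n m K sF ((if x = m then 0 else Pi.single (rx (some x)) 1) + sb some z)
      rw [zero_add, sb_some]
      by_cases hx : x = m
      · rw [if_pos hx, zero_add]
      · rw [if_neg hx]
        show (_ ∧ _ ∧ _ ∧ _) ↔ (_ ∧ _ ∧ _ ∧ _)
        simp [Ne.symm hx]
  · fin_cases j
    · show pC E n m K sH (0 + sb (kU none) z) ↔ pC E n m K (s1 t) (0 + sb (kU none) z)
      rw [zero_add]
      set w := sb (kU none) z with hw
      have hu : w ru = 0 := rfl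
      show pH E n m K w ↔ pH E n m K (w - w ru • mv E t)
      rw [hu, zero_smul, sub_zero]
    · show pC E n m K (s1 t) (0 + sb some z) ↔ pC E n m K (s1 t) (mv E t + sb some z)
      rw [zero_add, sb_some]
      show pH E n m K (z - z ru • mv E t) ↔
        pH E n m K (mv E t + z - (mv E t + z) ru • mv E t)
      have : mv E t + z - (mv E t + z) ru • mv E t = z - z ru • mv E t := by
        rw [Pi.add_apply, mv_u, add_smul, one_smul]
        abel
      rw [this]
    · show pC E n m K (s1 t) (0 + sb (kU (some (rx (tj E t)))) z) ↔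
        pC E n m K (s2 t) (0 + sb (kU (some (rx (tj E t)))) z)
      rw [zero_add]
      exact pC_12 E n m K t _ rfl
    · show pC E n m K (s2 t) (0 + sb some z) ↔ pC E n m K (s2 t) (Pi.single ru 1 + sb some z)
      rw [zero_add, sb_some]
      show pH E n m K (z - z ru • Pi.single ru 1 + Pi.single (rc t) 1) ↔
        pH E n m K ((Pi.single ru 1 : Rg X Q → ℤ) + z -
          ((Pi.single ru 1 : Rg X Q → ℤ) + z) ru • Pi.single ru 1 + Pi.single (rc t) 1)
      have : (Pi.single ru 1 : Rg X Q → ℤ) + z -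
          ((Pi.single ru 1 : Rg X Q → ℤ) + z) ru • Pi.single ru 1 =
          z - z ru • (Pi.single ru 1 : Rg X Q → ℤ) := by
        rw [Pi.add_apply, Pi.single_eq_same, add_smul, one_smul]
        abel
      rw [this]
    · show pC E n m K (s2 t) (0 + sb (kU none) z) ↔
        pC E n m K sH (Pi.single (rc t) 1 + sb (kU none) z)
      rw [zero_add]
      set w := sb (kU none) z with hw
      have hu : w ru = 0 := rfl
      show pH E n m K (w - w ru • Pi.single ru 1 + Pi.single (rc t) 1) ↔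
        pH E n m K (Pi.single (rc t) 1 + w)
      rw [hu, zero_smul, sub_zero, add_comm]
    · show pC E n m K sF (0 + sb some z) ↔ pC E n m K sF (Pi.single (rc t) 1 + sb some z)
      rw [zero_add, sb_some]
      show (_ ∧ _ ∧ _ ∧ _) ↔ (_ ∧ _ ∧ _ ∧ _)
      simp

/-! ### The walks -/

theorem walk_G (E : Q → Eqn X) (n m : X) (w : Rg X Q → ℤ) (hc : ∀ t, w (rc t) = 0)
    (hs : ∀ q, w (rs q) = 0) : Cn (Dr E n m) (sG, w) (sH, w) := by
  have h := use_rule E n m (Sum.inl false) w rfl (by
    funext j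
    rcases j with o | t | q | u
    · rfl
    · exact (hc t).symm
    · exact (hs q).symm
    · rfl)
  have e : w + (Dr E n m (Sum.inl false)).b = w := add_zero w
  rw [e] at h
  exact h

theorem walk_F (E : Q → Eqn X) (n m : X) (w : Rg X Q → ℤ) (hc : ∀ t, w (rc t) = w (rx (ti E t)))
    (hs : ∀ q, w (rs q) = 0) : Cn (Dr E n m) (sH, w) (sF, w) := by
  have h := use_rule E n m (Sum.inl true) w rfl (by
    funext j
    rcases j with o | t | q | u
    · rfl
    · exact (hc t).symm
    · exact (hs q).symm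
    · rfl)
  have e : w + (Dr E n m (Sum.inl true)).b = w := add_zero w
  rw [e] at h
  exact h

theorem walk_Gx (E : Q → Eqn X) (n m : X) (x : X) (hx : x ≠ n) (w : Rg X Q → ℤ) :
    Cn (Dr E n m) (sG, w) (sG, w + Pi.single (rx (some x)) 1) := by
  have h := use_rule E n m (Sum.inr (Sum.inl (x, false))) w rfl rfl
  have e : (Dr E n m (Sum.inr (Sum.inl (x, false)))).b =
      (Pi.single (rx (some x)) 1 : Rg X Q → ℤ) := if_neg hx
  rw [e] at h
  exact h

theorem walk_Fx (E : Q → Eqn X) (n m : X) (x : X) (hx : x ≠ m) (w : Rg X Q → ℤ) :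
    Cn (Dr E n m) (sF, w) (sF, w + Pi.single (rx (some x)) 1) := by
  have h := use_rule E n m (Sum.inr (Sum.inl (x, true))) w rfl rfl
  have e : (Dr E n m (Sum.inr (Sum.inl (x, true)))).b =
      (Pi.single (rx (some x)) 1 : Rg X Q → ℤ) := if_neg hx
  rw [e] at h
  exact h

theorem walk_Ft (E : Q → Eqn X) (n m : X) (t : Q × Fin 5) (w : Rg X Q → ℤ) :
    Cn (Dr E n m) (sF, w) (sF, w + Pi.single (rc t) 1) :=
  use_rule E n m (Sum.inr (Sum.inr (t, 5))) w rfl rfl

theorem sb_kU (o : Option (Rg X Q)) (w : Rg X Q → ℤ) (h : w ru = o.elim 0 w) :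
    sb (kU o) w = w := by
  funext j
  rcases j with o' | t | q | u
  · rfl
  · rfl
  · rfl
  · exact h.symm

theorem walk_H (E : Q → Eqn X) (n m : X) (t : Q × Fin 5) (w : Rg X Q → ℤ) (hu : w ru = 0) :
    Cn (Dr E n m) (sH, w) (sH, w + (Pi.single (rc t) 1 +
      (te E t * w (rx (tj E t))) • Pi.single (rs t.1) 1)) := by
  set k := w (rx (tj E t)) with hk
  have h0 := use_rule E n m (Sum.inr (Sum.inr (t, 0))) w rfl (sb_kU none w hu)
  have h0' : Cn (Dr E n m) (sH, w) (s1 t, w + 0) := h0
  rw [add_zero] at h0'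
  have h1 := (free_zsmul (D := Dr E n m) (p := s1 t) (fun _ => True) (mv E t) (fun _ => Iff.rfl)
    (fun w _ => use_rule E n m (Sum.inr (Sum.inr (t, 1))) w rfl rfl) k w trivial).1
  have hw1 : (w + k • mv E t) ru = (w + k • mv E t) (rx (tj E t)) := by
    simp only [Pi.add_apply, Pi.smul_apply, mv_u, mv_x, smul_eq_mul, mul_one, mul_zero, hu,
      zero_add, add_zero]
    rfl
  have h2 := use_rule E n m (Sum.inr (Sum.inr (t, 2))) (w + k • mv E t) rfl
    (sb_kU (some (rx (tj E t))) _ hw1)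
  have h2' : Cn (Dr E n m) (s1 t, w + k • mv E t) (s2 t, w + k • mv E t + 0) := h2
  rw [add_zero] at h2'
  have h3 := (free_zsmul (D := Dr E n m) (p := s2 t) (fun _ => True) (Pi.single ru 1)
    (fun _ => Iff.rfl)
    (fun w _ => use_rule E n m (Sum.inr (Sum.inr (t, 3))) w rfl rfl) (-k)
    (w + k • mv E t) trivial).1
  have hw2 : (w + k • mv E t + (-k) • (Pi.single ru 1 : Rg X Q → ℤ)) ru = 0 := by
    simp only [Pi.add_apply, Pi.smul_apply, mv_u, smul_eq_mul, mul_one, hu, zero_add,
      Pi.single_eq_same, add_neg_cancel]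
  have h4 := use_rule E n m (Sum.inr (Sum.inr (t, 4))) _ rfl (sb_kU none _ hw2)
  have h4' : Cn (Dr E n m) (s2 t, w + k • mv E t + (-k) • (Pi.single ru 1 : Rg X Q → ℤ))
    (sH, w + k • mv E t + (-k) • (Pi.single ru 1 : Rg X Q → ℤ) + Pi.single (rc t) 1) := h4
  have e : w + k • mv E t + (-k) • (Pi.single ru 1 : Rg X Q → ℤ) + Pi.single (rc t) 1 =
      w + (Pi.single (rc t) 1 + (te E t * k) • Pi.single (rs t.1) 1) := by
    unfold mv
    rw [smul_add, smul_smul, neg_smul, mul_comm k]
    abel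
  rw [e] at h4'
  exact (((h0'.trans h1).trans h2').trans h3).trans h4'

variable [Fintype X] [Fintype Q]

/-- The values of the registers `x`. -/
def vx (v : X → ℤ) (o : Option X) : ℤ := o.elim 1 v

/-- The vector of a valuation. -/
def W1 (v : X → ℤ) : Rg X Q → ℤ := Sum.elim (vx v) (fun _ => 0)

/-- The vector of an initial configuration. -/
def W0 (n : X) (a : ℤ) : Rg X Q → ℤ := a • Pi.single (rx (some n)) 1 + Pi.single (rx none) 1

theorem W1_eq (n : X) (v : X → ℤ) :
    (W1 v : Rg X Q → ℤ) = W0 n (v n) +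
      ∑ x ∈ Finset.univ.erase n, v x • (Pi.single (rx (some x)) 1 : Rg X Q → ℤ) := by
  have h : W0 n (v n) + ∑ x ∈ Finset.univ.erase n, v x • (Pi.single (rx (some x)) 1 : Rg X Q → ℤ) =
      Pi.single (rx none) 1 + ∑ x, v x • (Pi.single (rx (some x)) 1 : Rg X Q → ℤ) := by
    rw [← Finset.add_sum_erase _ _ (Finset.mem_univ n)]
    unfold W0
    abel
  rw [h]
  funext j
  rw [Pi.add_apply, Finset.sum_apply]
  rcases j with (_ | y) | t | q | u
  · simp [W1, vx]
  · have : ∀ x, (v x • (Pi.single (rx (some x)) 1 : Rg X Q → ℤ)) (Sum.inl (some y)) =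
        if y = x then v x else 0 := by
      intro x
      by_cases hx : y = x
      · subst hx; simp
      · have : (rx (some y) : Rg X Q) ≠ rx (some x) := by simpa using hx
        simp [hx]
    simp [W1, vx, this]
  · simp [W1]
  · simp [W1]
  · simp [W1]

theorem walk (E : Q → Eqn X) (n m : X) (v : X → ℤ) (hv : ∀ q, (E q).Holds v) :
    Cn (Dr E n m) (sG, W0 n (v n)) (sF, W0 m (v m)) := by
  classical
  have h1 : Cn (Dr E n m) (sG, W0 n (v n)) (sG, W1 v) := by
    rw [W1_eq n]
    exact (free_sum (D := Dr E n m) (fun _ => True) (fun x => Pi.single (rx (some x)) 1)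
      (Finset.univ.erase n) (fun _ _ _ => Iff.rfl)
      (fun x hx w _ => walk_Gx E n m x (Finset.ne_of_mem_erase hx) w) v _ trivial).1
  have h2 : Cn (Dr E n m) (sG, W1 v) (sH, W1 v) := walk_G E n m _ (fun _ => rfl) (fun _ => rfl)
  let ev : (Q × Fin 5) → Rg X Q → ℤ := fun t =>
    Pi.single (rc t) 1 + (te E t * vx v (tj E t)) • Pi.single (rs t.1) 1
  set W2 : Rg X Q → ℤ := W1 v + ∑ t, vx v (ti E t) • ev t with hW2
  have h3 : Cn (Dr E n m) (sH, W1 v) (sH, W2) ∧ (W2 ru = 0 ∧ ∀ o, W2 (rx o) = vx v o) := by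
    refine free_sum (D := Dr E n m) (fun w => w ru = 0 ∧ ∀ o, w (rx o) = vx v o) ev Finset.univ
      ?_ ?_ (fun t => vx v (ti E t)) (W1 v) ⟨rfl, fun _ => rfl⟩
    · intro t _ w
      simp [ev]
    · rintro t _ w ⟨hu, ho⟩
      have := walk_H E n m t w hu
      rw [ho] at this
      exact this
  have hc : ∀ t, W2 (rc t) = vx v (ti E t) := by
    intro t
    have h : ∀ t', (vx v (ti E t') • ev t') (rc t) = if t = t' then vx v (ti E t') else 0 := by
      intro t'
      by_cases ht : t = t'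
      · subst ht; simp [ev]
      · have : (rc t : Rg X Q) ≠ rc t' := by simpa using ht
        simp [ev, ht]
    rw [hW2, Pi.add_apply, Finset.sum_apply]
    simp only [h]
    simp [W1]
  have hs : ∀ q, W2 (rs q) = 0 := by
    intro q
    have h : ∀ t', (vx v (ti E t') • ev t') (rs q) =
        if q = t'.1 then vx v (ti E t') * (te E t' * vx v (tj E t')) else 0 := by
      intro t'
      by_cases ht : q = t'.1
      · subst ht; simp [ev]
      · have : (rs q : Rg X Q) ≠ rs t'.1 := by simpa using ht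
        simp [ev, ht]
    rw [hW2, Pi.add_apply, Finset.sum_apply]
    simp only [h]
    rw [Fintype.sum_prod_type]
    have h5 : ∀ q' : Q, (∑ r : Fin 5, if q = (q', r).1 then vx v (ti E (q', r)) *
        (te E (q', r) * vx v (tj E (q', r))) else 0) =
        if q = q' then ∑ r : Fin 5, vx v (ti E (q', r)) *
        (te E (q', r) * vx v (tj E (q', r))) else 0 := by
      intro q'
      by_cases hq : q = q'
      · simp [hq]
      · simp [hq]
    simp only [h5]
    rw [Finset.sum_ite_eq]
    have h6 := hv q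
    unfold Eqn.Holds at h6
    simp only [Finset.mem_univ, if_true, Fin.sum_univ_five]
    show 0 + _ = _
    simp only [ti, tj, te, vx]
    simp only [Option.elim, if_true, mul_one]
    simp
    linarith
  have h4 : Cn (Dr E n m) (sH, W2) (sF, W2) :=
    walk_F E n m W2 (fun t => by rw [hc, h3.2.2]) hs
  have h5 : Cn (Dr E n m) (sF, W0 m (v m)) (sF, W1 v) := by
    rw [W1_eq m]
    exact (free_sum (D := Dr E n m) (fun _ => True) (fun x => Pi.single (rx (some x)) 1)
      (Finset.univ.erase m) (fun _ _ _ => Iff.rfl)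
      (fun x hx w _ => walk_Fx E n m x (Finset.ne_of_mem_erase hx) w) v _ trivial).1
  have h6 : Cn (Dr E n m) (sF, W1 v) (sF, W2) := by
    have e : W2 = W1 v + ∑ t, vx v (ti E t) • (Pi.single (rc t) 1 : Rg X Q → ℤ) := by
      funext j
      rw [Pi.add_apply, Finset.sum_apply]
      rcases j with o | t | q | u
      · rw [h3.2.2]
        simp [W1]
      · rw [hc]
        have h : ∀ t', (vx v (ti E t') • (Pi.single (rc t') 1 : Rg X Q → ℤ))
            (Sum.inr (Sum.inl t)) = if t = t' then vx v (ti E t') else 0 := by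
          intro t'
          by_cases ht : t = t'
          · subst ht; simp
          · have : (rc t : Rg X Q) ≠ rc t' := by simpa using ht
            simp [ht]
        simp only [h]
        simp [W1]
      · rw [hs]
        simp [W1]
      · have : W2 (Sum.inr (Sum.inr (Sum.inr u))) = 0 := h3.2.1
        rw [this]
        simp [W1]
    rw [e]
    exact (free_sum (D := Dr E n m) (fun _ => True) (fun t => Pi.single (rc t) 1)
      Finset.univ (fun _ _ _ => Iff.rfl)
      (fun t _ w _ => walk_Ft E n m t w) (fun t => vx v (ti E t)) _ trivial).1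
  exact ((h1.trans h2).trans (h3.1.trans h4)).trans (h5.trans h6).symm

end Rules

end Pool.Agent.Run7.h872.IS
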