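import Pool.Agent.Run7.h872.IS.Enc
import Pool.Agent.Q223.IS.RE

set_option autoImplicit false
set_option linter.unusedSectionVars false

/-!
# The presentations and the groups
(MP_3d45c4_lc, helper872)
-/

namespace Pool.Agent.Run7.h872.IS

open Pool.Agent.Q223.IS

/-- A word of an element of a free group. -/
noncomputable def wd {A : Type} (h : A → ℕ) (g : FreeGroup A) : Wd :=
  (@FreeGroup.toWord A (Classical.decEq A) g).map (fun q => (h q.1, q.2))

theorem ev_wd {A M : Type} [Group M] (x : ℕ → M) (h : A → ℕ) (g : FreeGroup A) :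
    ev x (wd h g) = FreeGroup.lift (fun c => x (h c)) g := by
  classical
  have h1 : FreeGroup.mk (wd h g) = FreeGroup.map h g := by
    conv_rhs => rw [← @FreeGroup.mk_toWord A (Classical.decEq A) g]
    rw [FreeGroup.map.mk]
    rfl
  unfold ev
  rw [h1]
  have h2 : (FreeGroup.lift x).comp (FreeGroup.map h) = FreeGroup.lift (fun c => x (h c)) := by
    apply FreeGroup.ext_hom
    intro c
    rw [MonoidHom.comp_apply, FreeGroup.map.of, FreeGroup.lift_apply_of, FreeGroup.lift_apply_of]
  exact DFunLike.congr_fun h2 g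

section Main

variable {A κ ι : Type} [Fintype A] [Fintype κ] [Fintype ι]
  (rl : κ → FreeGroup A) (r s : ι → FreeGroup A) (U V : FreeGroup A)

variable (A) in
/-- number of letters -/
abbrev NN : ℕ := Fintype.card A

/-- left letters -/
noncomputable def la (c : A) : ℕ := (Fintype.equivFin A c : ℕ)

/-- right letters -/
noncomputable def lb (c : A) : ℕ := NN A + la c

theorem la_lt (c : A) : la c < NN A := (Fintype.equivFin A c).2

theorem sub_lt' {i : ℕ} (h' : i < NN A + NN A) (h : ¬ i < NN A) : i - NN A < Fintype.card A := by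
  unfold NN at *
  omega

/-- The relators of `K`. -/
noncomputable def R0 : List Wd :=
  (Finset.univ : Finset (A × A)).toList.map
      (fun x => cmw [(la x.1, true)] [(lb x.2, true)]) ++
    ((Finset.univ : Finset A).toList.map
      (fun c => cmw [(NN A + NN A, true)] ([(la c, true)] ++ [(lb c, true)])) ++
    (Finset.univ : Finset κ).toList.map (fun k => cmw [(NN A + NN A, true)] (wd la (rl k))))

/-- The generators of the subgroups. -/
noncomputable def RS : List Wd :=
  (Finset.univ : Finset ι).toList.map (fun i => wd la (r i)) ++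
    (Finset.univ : Finset ι).toList.map (fun i => wd lb (s i))

/-- The code. -/
noncomputable def cd (n : ℕ) : ℕ × List Wd :=
  fcode (NN A) (R0 rl) (RS r s) (wd la U) (wd la V) (wd la U) (wd la V) n

/-- The words. -/
def ww (n : ℕ) : FreeGroup A := U ^ n * V

section Val

variable {M : Type} [Group M] (x : ℕ → M)

theorem ev_R0 : (∀ w ∈ R0 rl, ev x w = 1) ↔
    (∀ c d : A, Commute (x (la c)) (x (lb d))) ∧
    (∀ c : A, Commute (x (NN A + NN A)) (x (la c) * x (lb c))) ∧
    ∀ k, Commute (x (NN A + NN A)) (FreeGroup.lift (fun c => x (la c)) (rl k)) := by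
  unfold R0
  simp only [List.mem_append, List.mem_map, Finset.mem_toList, Finset.mem_univ, true_and]
  constructor
  · intro h
    refine ⟨fun c d => ?_, fun c => ?_, fun k => ?_⟩
    · have := h _ (Or.inl ⟨(c, d), rfl⟩)
      rw [ev_cmw, ev_true, ev_true] at this
      exact this
    · have := h _ (Or.inr (Or.inl ⟨c, rfl⟩))
      rw [ev_cmw, ev_true, ev_append, ev_true, ev_true] at this
      exact this
    · have := h _ (Or.inr (Or.inr ⟨k, rfl⟩))
      rw [ev_cmw, ev_true, ev_wd] at this
      exact this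
  · rintro ⟨h1, h2, h3⟩ w (⟨⟨c, d⟩, rfl⟩ | ⟨c, rfl⟩ | ⟨k, rfl⟩)
    · rw [ev_cmw, ev_true, ev_true]
      exact h1 c d
    · rw [ev_cmw, ev_true, ev_append, ev_true, ev_true]
      exact h2 c
    · rw [ev_cmw, ev_true, ev_wd]
      exact h3 k

variable {rl} (f : KK (pr rl) →* M) (hf1 : ∀ c, f (ka _ c) = x (la c))
  (hf2 : ∀ c, f (kb _ c) = x (lb c)) (hf3 : f (kt _) = x (NN A + NN A))

include hf1 in
theorem f_wa (g : FreeGroup A) : f (wa _ g) = FreeGroup.lift (fun c => x (la c)) g := by
  have : f.comp (wa (pr rl)) = FreeGroup.lift (fun c => x (la c)) := by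
    apply FreeGroup.ext_hom
    intro c
    rw [MonoidHom.comp_apply, wa_of, hf1, FreeGroup.lift_apply_of]
  exact DFunLike.congr_fun this g

include hf2 in
theorem f_wb (g : FreeGroup A) : f (wb _ g) = FreeGroup.lift (fun c => x (lb c)) g := by
  have : f.comp (wb (pr rl)) = FreeGroup.lift (fun c => x (lb c)) := by
    apply FreeGroup.ext_hom
    intro c
    rw [MonoidHom.comp_apply, wb_of, hf2, FreeGroup.lift_apply_of]
  exact DFunLike.congr_fun this g

include hf1 hf3 in
theorem ev_tw' (i : ℕ) : ev x (tw (NN A + NN A) (wd la U) (wd la V) i) = f (Tt _ (ww U V i)) := by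
  rw [ev_tw, ev_wd, ev_wd]
  unfold Tt ww
  rw [map_mul, map_mul, map_inv, f_wa x f hf1, hf3, map_mul, map_pow]

include hf1 hf2 hf3 in
/-- The relations of `k_j`. -/
theorem ev_relsJ (n j : ℕ) :
    (∀ w ∈ relsJ (NN A) (RS r s) (wd la U) (wd la V) (wd la U) (wd la V) n j, ev x w = 1) ↔
      RelT (Zs (pr rl) r s (ww U V) j) (Tt _ (ww U V n)) j f (x (NN A + NN A + 1 + j)) := by
  have hT := ev_tw' U V x f hf1 hf3
  have hA := f_wa x f hf1
  have hB := f_wb x f hf2
  unfold relsJ RS
  constructor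
  · intro h
    refine ⟨?_, ?_, ?_⟩
    · have := h _ List.mem_cons_self
      rw [ev_rp, ev_true] at this
      exact this
    · rintro z ((⟨i, rfl⟩ | ⟨i, rfl⟩) | ⟨i, hi, rfl⟩)
      · have := h (cmw [(NN A + NN A + 1 + j, true)] (wd la (r i))) (by
          simp only [List.mem_cons, List.mem_append, List.mem_map, Finset.mem_toList,
            Finset.mem_univ, true_and]
          exact Or.inr (Or.inr (Or.inl ⟨_, Or.inl ⟨i, rfl⟩, rfl⟩)))
        rw [ev_cmw, ev_true, ev_wd] at this
        rw [hA]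
        exact this
      · have := h (cmw [(NN A + NN A + 1 + j, true)] (wd lb (s i))) (by
          simp only [List.mem_cons, List.mem_append, List.mem_map, Finset.mem_toList,
            Finset.mem_univ, true_and]
          exact Or.inr (Or.inr (Or.inl ⟨_, Or.inr ⟨i, rfl⟩, rfl⟩)))
        rw [ev_cmw, ev_true, ev_wd] at this
        rw [hB]
        exact this
      · have := h (cmw [(NN A + NN A + 1 + j, true)]
            (tw (NN A + NN A) (wd la U) (wd la V) i)) (by
          simp only [List.mem_cons, List.mem_append, List.mem_map, Finset.mem_toList,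
            Finset.mem_univ, true_and]
          exact Or.inr (Or.inr (Or.inr ⟨i, List.mem_range.2 (by omega), rfl⟩)))
        rw [ev_cmw, ev_true, hT] at this
        exact this
    · have := h _ (List.mem_cons_of_mem _ List.mem_cons_self)
      rw [ev_append, ev_append, ev_append, ev_inv, hT, ev_true] at this
      exact eq_inv_of_mul_eq_one_left this
  · rintro ⟨h1, h2, h3⟩ w hw
    simp only [List.mem_cons, List.mem_append, List.mem_map, Finset.mem_toList,
      Finset.mem_univ, true_and] at hw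
    rcases hw with rfl | rfl | ⟨v, ⟨i, rfl⟩ | ⟨i, rfl⟩, rfl⟩ | ⟨i, hi, rfl⟩
    · rw [ev_rp, ev_true]
      exact h1
    · rw [ev_append, ev_append, ev_append, ev_inv, hT, ev_true, h3, inv_mul_cancel]
    · rw [ev_cmw, ev_true, ev_wd, ← hA]
      exact h2 _ (Or.inl (Or.inl ⟨i, rfl⟩))
    · rw [ev_cmw, ev_true, ev_wd, ← hB]
      exact h2 _ (Or.inl (Or.inr ⟨i, rfl⟩))
    · rw [ev_cmw, ev_true, hT]
      exact h2 _ (Or.inr ⟨i, by have := List.mem_range.1 hi; omega, rfl⟩)

theorem ev_cd (n : ℕ) : (∀ w ∈ (cd rl r s U V n).2, ev x w = 1) ↔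
    (∀ w ∈ R0 rl, ev x w = 1) ∧ ∀ j < n,
      ∀ w ∈ relsJ (NN A) (RS r s) (wd la U) (wd la V) (wd la U) (wd la V) n j, ev x w = 1 := by
  unfold cd fcode
  simp only [List.mem_append, List.mem_flatMap, List.mem_range]
  constructor
  · intro h
    exact ⟨fun w hw => h w (Or.inl hw), fun j hj w hw => h w (Or.inr ⟨j, hj, hw⟩)⟩
  · rintro ⟨h1, h2⟩ w (hw | ⟨j, hj, hw⟩)
    · exact h1 w hw
    · exact h2 j hj w hw

include hf1 hf2 hf3 in
theorem f_R0 : ∀ w ∈ R0 rl, ev x w = 1 := by
  rw [ev_R0]
  refine ⟨fun c d => ?_, fun c => ?_, fun k => ?_⟩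
  · rw [← hf1, ← hf2]
    exact (ka_kb _ c d).map f
  · rw [← hf1, ← hf2, ← hf3, ← map_mul]
    exact (kt_ab _ c).map f
  · rw [← f_wa x f hf1, ← hf3]
    have h : pr rl (rl k) = 1 := PresentedGroup.one_of_mem ⟨k, rfl⟩
    exact (kt_rel (pr rl) (rl k) h).map f

end Val

variable {rl r s U V}

theorem iso_tower {n m : ℕ} {B : Type} [Group B] {j : KK (pr rl) →* B} {k : ℕ → B}
    (T : Tower (Zs (pr rl) r s (ww U V)) (Tt _ (ww U V n)) m B j k) (hmn : m ≤ n)
    (hD : Dc (pr rl) r s (ww U V n) (ww U V m)) : Nonempty (PG (cd rl r s U V n) ≃* B) := by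
  classical
  set a := cd rl r s U V n with ha
  have ha1 : a.1 = NN A + NN A + 1 + n := rfl
  have hrel : ∀ w ∈ a.2, ev (gen a) w = 1 := fun w hw => PG_rel a hw
  obtain ⟨h0, hJ⟩ := (ev_cd r s U V (gen a) n).1 hrel
  obtain ⟨h1, h2, h3⟩ := (ev_R0 rl (gen a)).1 h0
  obtain ⟨f, hf1, hf2, hf3⟩ := KK_lift rl (fun c => gen a (la c)) (fun c => gen a (lb c))
    (gen a (NN A + NN A)) h1 h2 h3
  have hR : ∀ j < n, RelT (Zs (pr rl) r s (ww U V) j) (Tt _ (ww U V n)) j f
      (gen a (NN A + NN A + 1 + j)) := fun j hj =>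
    (ev_relsJ r s U V (gen a) f hf1 hf2 hf3 n j).1 (hJ j hj)
  obtain ⟨F, hF, hF'⟩ := T.lift (PG a) f (fun j => gen a (NN A + NN A + 1 + j))
    (fun j hj => hR j (lt_of_lt_of_le hj hmn))
  -- the other direction
  let y : ℕ → B := fun i =>
    if h : i < NN A then j (ka _ ((Fintype.equivFin A).symm ⟨i, h⟩))
    else if h' : i < NN A + NN A then
      j (kb _ ((Fintype.equivFin A).symm ⟨i - NN A, sub_lt' h' h⟩))
    else if i = NN A + NN A then j (kt _)
    else if i - (NN A + NN A + 1) < m then k (i - (NN A + NN A + 1)) else 1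
  have hy1 : ∀ c, j (ka _ c) = y (la c) := by
    intro c
    simp only [y]
    rw [dif_pos (la_lt c)]
    unfold la
    simp
  have hy2 : ∀ c, j (kb _ c) = y (lb c) := by
    intro c
    simp only [y]
    have := la_lt c
    have e : lb c = NN A + la c := rfl
    rw [dif_neg (by omega), dif_pos (by omega)]
    have e2 : ∀ h, (⟨lb c - NN A, h⟩ : Fin (Fintype.card A)) = Fintype.equivFin A c := by
      intro h
      apply Fin.ext
      show NN A + la c - NN A = _
      rw [Nat.add_sub_cancel_left]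
      rfl
    rw [e2, Equiv.symm_apply_apply]
  have hy3 : j (kt _) = y (NN A + NN A) := by
    simp only [y]
    rw [dif_neg (by omega), dif_neg (by omega), if_pos True.intro]
  have hy4 : ∀ i < m, y (NN A + NN A + 1 + i) = k i := by
    intro i hi
    simp only [y]
    rw [dif_neg (by omega), dif_neg (by omega), if_neg (by omega), if_pos (by omega)]
    congr 1
    omega
  have hy5 : ∀ i, m ≤ i → y (NN A + NN A + 1 + i) = 1 := by
    intro i hi
    simp only [y]
    rw [dif_neg (by omega), dif_neg (by omega), if_neg (by omega), if_neg (by omega)]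
  have hcase : ∀ i : ℕ, (∃ c : A, i = la c) ∨ (∃ c : A, i = lb c) ∨ i = NN A + NN A ∨
      ∃ l, i = NN A + NN A + 1 + l := by
    intro i
    by_cases h : i < NN A
    · refine Or.inl ⟨(Fintype.equivFin A).symm ⟨i, h⟩, ?_⟩
      unfold la
      simp
    · by_cases h' : i < NN A + NN A
      · refine Or.inr (Or.inl ⟨(Fintype.equivFin A).symm ⟨i - NN A, sub_lt' h' h⟩, ?_⟩)
        unfold lb la
        simp
        omega
      · by_cases h'' : i = NN A + NN A
        · exact Or.inr (Or.inr (Or.inl h''))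
        · exact Or.inr (Or.inr (Or.inr ⟨i - (NN A + NN A + 1), by omega⟩))
  have hG0 : ∀ w ∈ a.2, ev y w = 1 := by
    refine (ev_cd r s U V y n).2 ⟨f_R0 y j hy1 hy2 hy3, fun l hl => ?_⟩
    refine (ev_relsJ r s U V y j hy1 hy2 hy3 n l).2 ?_
    by_cases hlm : l < m
    · rw [hy4 l hlm]
      exact T.rel l hlm
    · rw [hy5 l (not_lt.1 hlm)]
      exact relT_triv _ _ _ _
  obtain ⟨G, hG⟩ := PG_lift a y (by
    intro i hi
    rw [ha1] at hi
    obtain ⟨l, rfl⟩ : ∃ l, i = NN A + NN A + 1 + l := ⟨i - (NN A + NN A + 1), by omega⟩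
    exact hy5 l (by omega)) hG0
  have e1 : F.comp G = MonoidHom.id (PG a) := by
    apply PG_ext
    intro i
    rw [MonoidHom.comp_apply, hG, MonoidHom.id_apply]
    rcases hcase i with ⟨c, rfl⟩ | ⟨c, rfl⟩ | rfl | ⟨l, rfl⟩
    · rw [← hy1, hF, hf1]
    · rw [← hy2, hF, hf2]
    · rw [← hy3, hF, hf3]
    · by_cases hlm : l < m
      · rw [hy4 l hlm, hF' l hlm]
      · rw [hy5 l (not_lt.1 hlm), map_one]
        by_cases hln : l < n
        · exact (relT_one (hR l hln) (not_lt.1 hlm) hD).symm
        · exact (gen_big a (by rw [ha1]; omega)).symm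
  have e2 : G.comp F = MonoidHom.id B := by
    apply T.ext
    · intro z
      have : ((G.comp F).comp j) = (MonoidHom.id B).comp j := by
        apply KK_ext _ (pr_surj rl)
        · intro c
          show G (F (j (ka _ c))) = j (ka _ c)
          rw [hF, hf1, hG, hy1]
        · intro c
          show G (F (j (kb _ c))) = j (kb _ c)
          rw [hF, hf2, hG, hy2]
        · show G (F (j (kt _))) = j (kt _)
          rw [hF, hf3, hG, hy3]
      exact DFunLike.congr_fun this z
    · intro l hl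
      show G (F (k l)) = k l
      rw [hF' l hl, hG, hy4 l hl]
  exact ⟨MonoidHom.toMulEquiv G F e1 e2⟩

theorem dc_refl (g : FreeGroup A) : Dc (pr rl) r s g g := ⟨1, one_mem _, 1, one_mem _, by simp⟩

/-- The reduction. -/
theorem cd_iff (a b : ℕ) : Dc (pr rl) r s (ww U V a) (ww U V b) ↔
    Nonempty (PG (cd rl r s U V a) ≃* PG (cd rl r s U V b)) := by
  classical
  have hex : ∀ a, ∃ i, Dc (pr rl) r s (ww U V a) (ww U V i) := fun a => ⟨a, dc_refl _⟩
  let mm : ℕ → ℕ := fun a => Nat.find (hex a)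
  have hmm : ∀ a, Dc (pr rl) r s (ww U V a) (ww U V (mm a)) := fun a => Nat.find_spec (hex a)
  have hmin : ∀ a, ∀ i < mm a, ¬ Dc (pr rl) r s (ww U V a) (ww U V i) :=
    fun a i hi => Nat.find_min (hex a) hi
  have hle : ∀ a, mm a ≤ a := fun a => Nat.find_min' (hex a) (dc_refl _)
  constructor
  · intro h
    have hm : mm a = mm b := by
      apply le_antisymm
      · exact Nat.find_min' (hex a) (h.trans (hmm b))
      · exact Nat.find_min' (hex b) (h.symm.trans (hmm a))
    obtain ⟨B, _, j, k, T⟩ := tower_exists (ww U V a) (mm a) (hmin a)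
    obtain ⟨e⟩ := iso_tower T (hle a) (hmm a)
    have T' := tower_congr T h
    obtain ⟨e'⟩ := iso_tower T' (hm ▸ hle b) (by rw [hm]; exact hmm b)
    exact ⟨e.trans e'.symm⟩
  · rintro ⟨e⟩
    obtain ⟨B, _, j, k, T⟩ := tower_exists (ww U V a) (mm a) (hmin a)
    obtain ⟨B', _, j', k', T'⟩ := tower_exists (ww U V b) (mm b) (hmin b)
    obtain ⟨e1⟩ := iso_tower T (hle a) (hmm a)
    obtain ⟨e2⟩ := iso_tower T' (hle b) (hmm b)
    have hm : mm a = mm b := tower_height T T' ((e1.symm.trans e).trans e2)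
    have h1 := hmm a
    rw [hm] at h1
    exact h1.trans (hmm b).symm

theorem cd_comp : Computable (cd rl r s U V) := fcode_comp _ _ _ _ _ _ _

end Main

/-- Every recursively enumerable equivalence relation reduces to isomorphism. -/
theorem reduction (R : ℕ → ℕ → Prop) (hR : Equivalence R)
    (hre : REPred (fun p : ℕ × ℕ => R p.1 p.2)) :
    ∃ f : ℕ → ℕ × List Wd, Computable f ∧
      ∀ a b, R a b ↔ Nonempty (PG (f a) ≃* PG (f b)) := by
  obtain ⟨A, κ, ι, _, _, _, rl, r, s, U, V, h⟩ := exists_dc R hR hre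
  refine ⟨cd rl r s U V, cd_comp, fun a b => ?_⟩
  rw [h a b]
  exact cd_iff a b

end Pool.Agent.Run7.h872.IS
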